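import Mathlib

/-! Module G: crude bound for the inverse of the Gamma function and the value on the critical line. -/

open Complex MeasureTheory Set Filter Topology

namespace CLine

theorem Gamma_half_norm_sq (v : ℝ) :
    ‖Complex.Gamma (1 / 2 + v * I)‖ ^ 2 = Real.pi / Real.cosh (Real.pi * v) := by
  have h1 := Complex.Gamma_mul_Gamma_one_sub (1 / 2 + v * I)
  have h2 : (1 : ℂ) - (1 / 2 + v * I) = starRingEnd ℂ (1 / 2 + v * I) := by
    simp only [map_add, map_div₀, map_one, map_ofNat, map_mul, Complex.conj_ofReal, Complex.conj_I]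
    ring
  rw [h2, Complex.Gamma_conj, Complex.mul_conj] at h1
  have h3 : Complex.sin (Real.pi * (1 / 2 + v * I)) = Real.cosh (Real.pi * v) := by
    rw [show (Real.pi : ℂ) * (1 / 2 + v * I) = (Real.pi * v : ℝ) * I + Real.pi / 2 by
      push_cast; ring]
    rw [Complex.sin_add_pi_div_two, Complex.cos_mul_I]
    norm_cast
  rw [h3] at h1
  rw [← Complex.normSq_eq_norm_sq]
  exact_mod_cast h1

private lemma norm_sin_le (s : ℂ) : ‖Complex.sin s‖ ≤ Real.exp |s.im| := by
  have h1 : Complex.sin s = (Complex.exp (-s * I) - Complex.exp (s * I)) * I / 2 := rfl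
  rw [h1]
  have h2 : ‖Complex.exp (-s * I)‖ ≤ Real.exp |s.im| := by
    rw [Complex.norm_exp]
    apply Real.exp_le_exp.2
    simp only [neg_mul, neg_re, mul_re, I_re, mul_zero, I_im, mul_one, zero_sub, neg_neg]
    exact le_abs_self _
  have h3 : ‖Complex.exp (s * I)‖ ≤ Real.exp |s.im| := by
    rw [Complex.norm_exp]
    apply Real.exp_le_exp.2
    simp only [mul_re, I_re, mul_zero, I_im, mul_one, zero_sub]
    exact neg_le_abs _
  rw [norm_div, norm_mul, Complex.norm_I, mul_one]
  have h4 : ‖(2 : ℂ)‖ = 2 := by simp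
  rw [h4]
  have h5 := norm_sub_le (Complex.exp (-s * I)) (Complex.exp (s * I))
  linarith

private lemma Gamma_re_bound : ∃ C : ℝ, 0 < C ∧ ∀ s : ℂ, 1 ≤ s.re → s.re ≤ 9 / 2 →
    ‖Complex.Gamma s‖ ≤ C := by
  have hc : ContinuousOn Real.Gamma (Icc 1 (9 / 2)) := by
    intro x hx
    have : DifferentiableAt ℝ Real.Gamma x :=
      Real.differentiableAt_Gamma (fun m => by
        have := hx.1
        have : (0 : ℝ) ≤ m := Nat.cast_nonneg m
        intro h; linarith)
    exact this.continuousAt.continuousWithinAt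
  obtain ⟨C, hC⟩ := (isCompact_Icc.image_of_continuousOn hc).bddAbove
  refine ⟨max C 1, by positivity, ?_⟩
  intro s h1 h2
  have hpos : 0 < s.re := by linarith
  have h3 : ‖Complex.Gamma s‖ ≤ Real.Gamma s.re := by
    rw [Complex.Gamma_eq_integral hpos, Real.Gamma_eq_integral hpos, Complex.GammaIntegral]
    refine (norm_integral_le_integral_norm _).trans (le_of_eq ?_)
    apply setIntegral_congr_fun measurableSet_Ioi
    intro t ht
    have ht' : (0 : ℝ) < t := ht
    simp only [norm_mul]
    rw [norm_cpow_eq_rpow_re_of_pos ht', Complex.norm_real, Real.norm_eq_abs,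
      abs_of_pos (Real.exp_pos _)]
    simp
  exact h3.trans ((hC ⟨s.re, ⟨h1, h2⟩, rfl⟩).trans (le_max_left _ _))

theorem inv_Gamma_bound : ∃ C : ℝ, ∀ s : ℂ, 1 / 2 ≤ s.re → s.re ≤ 4 →
    ‖(Complex.Gamma s)⁻¹‖ ≤ C * Real.exp (Real.pi * |s.im|) := by
  obtain ⟨C1, hC1, hb⟩ := Gamma_re_bound
  -- compact part
  set K : Set ℂ := Icc (1 / 2 : ℝ) 4 ×ℂ Icc (-1 : ℝ) 1 with hK
  have hKc : IsCompact K := isCompact_Icc.reProdIm isCompact_Icc
  have hcont : ContinuousOn (fun s : ℂ => (Complex.Gamma s)⁻¹) K :=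
    Complex.differentiable_one_div_Gamma.continuous.continuousOn
  obtain ⟨C2, hC2⟩ := hKc.exists_bound_of_continuousOn hcont
  refine ⟨max C1 C2, ?_⟩
  intro s h1 h2
  have hmax : 0 < max C1 C2 := lt_max_of_lt_left hC1
  by_cases him : |s.im| ≤ 1
  · have hs : s ∈ K := ⟨⟨h1, h2⟩, abs_le.1 him⟩
    have h3 := hC2 s hs
    have h4 : 1 ≤ Real.exp (Real.pi * |s.im|) := Real.one_le_exp (by positivity)
    calc ‖(Complex.Gamma s)⁻¹‖ ≤ C2 := h3
      _ ≤ max C1 C2 := le_max_right _ _
      _ ≤ max C1 C2 * Real.exp (Real.pi * |s.im|) := le_mul_of_one_le_right hmax.le h4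
  · push Not at him
    have hne : s.im ≠ 0 := by
      intro h; rw [h] at him; simp at him; linarith
    have hG : Complex.Gamma s ≠ 0 := Complex.Gamma_ne_zero (fun m h => hne (by rw [h]; simp))
    have hrefl := Complex.Gamma_mul_Gamma_one_sub s
    have hsin : Complex.sin (Real.pi * s) ≠ 0 := by
      intro h
      rw [Complex.sin_eq_zero_iff] at h
      obtain ⟨k, hk⟩ := h
      have h5 : s = k := by
        have hpi : (Real.pi : ℂ) ≠ 0 := by exact_mod_cast Real.pi_ne_zero
        have : (Real.pi : ℂ) * s = Real.pi * k := by rw [hk]; ring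
        exact mul_left_cancel₀ hpi this
      apply hne; rw [h5]; simp
    have hinv : (Complex.Gamma s)⁻¹ = Complex.Gamma (1 - s) * Complex.sin (Real.pi * s) / Real.pi := by
      rw [eq_div_iff (by exact_mod_cast Real.pi_ne_zero)]
      rw [eq_div_iff hsin] at hrefl
      have h7 : (Complex.Gamma s)⁻¹ * (Complex.Gamma s * Complex.Gamma (1 - s) *
          Complex.sin (Real.pi * s)) = Complex.Gamma (1 - s) * Complex.sin (Real.pi * s) := by
        rw [mul_assoc, inv_mul_cancel_left₀ hG]
      rw [hrefl] at h7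
      exact h7
    -- shift
    have hstep : ∀ z : ℂ, z.im = -s.im → ‖Complex.Gamma z‖ ≤ ‖Complex.Gamma (z + 1)‖ := by
      intro z hz
      have hz0 : z ≠ 0 := by
        intro h; rw [h] at hz; simp at hz; exact hne hz
      rw [Complex.Gamma_add_one z hz0, norm_mul]
      have : 1 ≤ ‖z‖ := by
        have h6 := Complex.abs_im_le_norm z
        rw [hz, abs_neg] at h6
        linarith
      exact le_mul_of_one_le_left (norm_nonneg _) this
    have hG4 : ‖Complex.Gamma (1 - s)‖ ≤ C1 := by
      have e1 := hstep (1 - s) (by simp)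
      have e2 := hstep (1 - s + 1) (by simp)
      have e3 := hstep (1 - s + 1 + 1) (by simp)
      have e4 := hstep (1 - s + 1 + 1 + 1) (by simp)
      have e5 := hb (1 - s + 1 + 1 + 1 + 1) (by simp; linarith) (by simp; linarith)
      linarith
    have hsinb : ‖Complex.sin (Real.pi * s)‖ ≤ Real.exp (Real.pi * |s.im|) := by
      refine (norm_sin_le _).trans (le_of_eq ?_)
      congr 1
      simp [abs_mul, abs_of_pos Real.pi_pos]
    rw [hinv, norm_div, norm_mul]
    have hpi : ‖(Real.pi : ℂ)‖ = Real.pi := by simp [abs_of_pos Real.pi_pos]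
    rw [hpi]
    have hE : 0 < Real.exp (Real.pi * |s.im|) := Real.exp_pos _
    calc ‖Complex.Gamma (1 - s)‖ * ‖Complex.sin (Real.pi * s)‖ / Real.pi
        ≤ C1 * Real.exp (Real.pi * |s.im|) / Real.pi := by gcongr
      _ ≤ C1 * Real.exp (Real.pi * |s.im|) := by
          apply div_le_self (by positivity)
          linarith [Real.pi_gt_three]
      _ ≤ max C1 C2 * Real.exp (Real.pi * |s.im|) := by
          gcongr
          exact le_max_left _ _

end CLine
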